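import Mathlib
import Pool.Agent.helper50.NN.Own

/-!
# The n-(n+1)-(n+2) theorem for fibre products, and its homological form

The proof is purely algebraic; the heart is `Pool.Agent.NN.Pair.main`.
-/

set_option autoImplicit false

namespace Pool.Agent.Results.MP_5c61b4_al.FibreProducts

/-- `G` is of type `FP_n`: there is a partial resolution `P_n → ... → P_1 → P_0 → ℤ → 0` of the
trivial module `ℤ` by finitely generated projective modules over the integral group ring `ℤG`.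
(`ε` is additive and `G`-invariant, that is, `ℤG`-linear for the trivial action on `ℤ`; only
`P_0, ..., P_n` and the maps between them matter.) -/
def TypeFP (n : ℕ) (G : Type) [Group G] : Prop :=
  ∃ (P : ℕ → Type) (_ : ∀ i, AddCommGroup (P i)) (_ : ∀ i, Module (MonoidAlgebra ℤ G) (P i))
    (ε : P 0 →+ ℤ) (d : ∀ i, P (i + 1) →ₗ[MonoidAlgebra ℤ G] P i),
    (∀ i ≤ n, Module.Finite (MonoidAlgebra ℤ G) (P i) ∧
      Module.Projective (MonoidAlgebra ℤ G) (P i)) ∧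
    (∀ (g : G) (x : P 0), ε (MonoidAlgebra.of ℤ G g • x) = ε x) ∧ Function.Surjective ε ∧
    (0 < n → ∀ x : P 0, ε x = 0 ↔ ∃ y, d 0 y = x) ∧
    ∀ i, i + 2 ≤ n → ∀ x : P (i + 1), d i x = 0 ↔ ∃ y, d (i + 1) y = x

/-- `G` is of type `F_n` (`n ≥ 1`): it is of type `FP_n` and, if `n ≥ 2`, finitely presented. -/
def TypeF (n : ℕ) (G : Type) [Group G] : Prop :=
  TypeFP n G ∧ (2 ≤ n → Group.IsFinitelyPresented G)

/-- The fibre product `{(γ₁, γ₂) : π₁ γ₁ = π₂ γ₂}` as a subgroup of `Γ₁ × Γ₂`. -/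
def fibreProduct {Γ₁ Γ₂ Q : Type} [Group Γ₁] [Group Γ₂] [Group Q] (π₁ : Γ₁ →* Q)
    (π₂ : Γ₂ →* Q) : Subgroup (Γ₁ × Γ₂) where
  carrier := {x | π₁ x.1 = π₂ x.2}
  one_mem' := ((MonoidHom.eqLocus (π₁.comp (MonoidHom.fst Γ₁ Γ₂))
    (π₂.comp (MonoidHom.snd Γ₁ Γ₂)))).one_mem
  mul_mem' := ((MonoidHom.eqLocus (π₁.comp (MonoidHom.fst Γ₁ Γ₂))
    (π₂.comp (MonoidHom.snd Γ₁ Γ₂)))).mul_mem
  inv_mem' := ((MonoidHom.eqLocus (π₁.comp (MonoidHom.fst Γ₁ Γ₂))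
    (π₂.comp (MonoidHom.snd Γ₁ Γ₂)))).inv_mem

section aux

open Pool.Agent.NN

variable {G : Type} [Group G]

lemma of_typeFP {n : ℕ} (h : TypeFP n G) : FP (ZG G) n (Triv G) := by
  obtain ⟨P, iP, jP, ε, d, hP, hε, hs, h0, h1⟩ := h
  let e : P 0 →ₗ[ZG G] Triv G := mkLin (show P 0 →+ Triv G from ε) (by
    intro g v
    rw [triv_o]
    exact hε g v)
  refine FP.peelP n (Triv G) P iP jP e d hP hs ?_ ?_
  · intro hn
    ext x
    exact (h0 hn x).symm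
  · intro j hj
    ext x
    exact (h1 j hj x).symm

lemma to_typeFP {n : ℕ} (h : FP (ZG G) n (Triv G)) : TypeFP n G := by
  obtain ⟨k, e, d, he, h0, h1⟩ := FP.build n _ h
  refine ⟨fun i => Fin (k i) → ZG G, fun i => inferInstance, fun i => inferInstance,
    (show (Fin (k 0) → ZG G) →+ ℤ from e.toAddMonoidHom), d, fun i _ => ⟨inferInstance,
    inferInstance⟩, ?_, he, ?_, ?_⟩
  · intro g x
    have h2 : e (MonoidAlgebra.of ℤ G g • x) = (MonoidAlgebra.of ℤ G g : ZG G) • e x :=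
      e.map_smul _ _
    rw [triv_o] at h2
    exact h2
  · intro hn x
    have h2 : x ∈ LinearMap.ker e ↔ x ∈ LinearMap.range (d 0) := by rw [h0 hn]
    exact h2
  · intro i hi x
    have h2 : x ∈ LinearMap.ker (d i) ↔ x ∈ LinearMap.range (d (i + 1)) := by rw [h1 i hi]
    exact h2

end aux

/-- **The n-(n+1)-(n+2) theorem.** Let `π₁ : Γ₁ → Q` and `π₂ : Γ₂ → Q` be surjective with kernels
`N₁`, `N₂` and let `P` be their fibre product.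

(1) The conjecture, `n ≥ 2`: if `N₁` is of type `F_n`, `Γ₁` and `Γ₂` are of type `F_(n+1)` and `Q`
is of type `F_(n+2)`, then `P` is of type `F_(n+1)`.

(2) Homological form, `n ≥ 1`: if `N₁` is of type `FP_n`, `Γ₁` and `Γ₂` are of type `FP_(n+1)`,
`Q` is of type `FP_(n+2)`, and `Q` is finitely presented or `N₂` is the normal closure in `Γ₂` of a
finite set, then `P` is of type `FP_(n+1)`. -/
theorem result :
    (∀ n : ℕ, 2 ≤ n → ∀ (Γ₁ Γ₂ Q : Type) [Group Γ₁] [Group Γ₂] [Group Q]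
      (π₁ : Γ₁ →* Q) (π₂ : Γ₂ →* Q), Function.Surjective π₁ → Function.Surjective π₂ →
      TypeF n π₁.ker → TypeF (n + 1) Γ₁ → TypeF (n + 1) Γ₂ → TypeF (n + 2) Q →
      TypeF (n + 1) (fibreProduct π₁ π₂)) ∧
    (∀ n : ℕ, 1 ≤ n → ∀ (Γ₁ Γ₂ Q : Type) [Group Γ₁] [Group Γ₂] [Group Q]
      (π₁ : Γ₁ →* Q) (π₂ : Γ₂ →* Q), Function.Surjective π₁ → Function.Surjective π₂ →
      TypeFP n π₁.ker → TypeFP (n + 1) Γ₁ → TypeFP (n + 1) Γ₂ → TypeFP (n + 2) Q →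
      (Group.IsFinitelyPresented Q ∨ π₂.ker.IsFinitelyNormallyGenerated) →
      TypeFP (n + 1) (fibreProduct π₁ π₂)) := by
  have key : ∀ n : ℕ, 1 ≤ n → ∀ (Γ₁ Γ₂ Q : Type) [Group Γ₁] [Group Γ₂] [Group Q]
      (π₁ : Γ₁ →* Q) (π₂ : Γ₂ →* Q), Function.Surjective π₁ → Function.Surjective π₂ →
      TypeFP n π₁.ker → TypeFP (n + 1) Γ₁ → TypeFP (n + 1) Γ₂ → TypeFP (n + 2) Q →
      (Group.IsFinitelyPresented Q ∨ π₂.ker.IsFinitelyNormallyGenerated) →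
      TypeFP (n + 1) (fibreProduct π₁ π₂) := by
    intro n hn Γ₁ Γ₂ Q _ _ _ π₁ π₂ h₁ h₂ hN hΓ₁ hΓ₂ hQ hK
    obtain ⟨m, rfl⟩ : ∃ m, n = m + 1 := ⟨n - 1, by omega⟩
    have hΓ₂' := of_typeFP hΓ₂
    have hK' : π₂.ker.IsFinitelyNormallyGenerated := by
      rcases hK with hQ' | hK
      · have fΓ₂ : Group.FG Γ₂ := Pool.Agent.NN.fg_of_FP (hΓ₂'.mono (by omega))
        exact Pool.Agent.NN.ker_fng π₂ h₂
      · exact hK
    exact to_typeFP (Pool.Agent.NN.fib_hom π₁ π₂ h₁ h₂ m (of_typeFP hN) (of_typeFP hΓ₁) hΓ₂'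
      (of_typeFP hQ) hK')
  refine ⟨?_, key⟩
  intro n hn Γ₁ Γ₂ Q _ _ _ π₁ π₂ h₁ h₂ hN hΓ₁ hΓ₂ hQ
  refine ⟨key n (by omega) Γ₁ Γ₂ Q π₁ π₂ h₁ h₂ hN.1 hΓ₁.1 hΓ₂.1 hQ.1 (Or.inl (hQ.2 (by omega))),
    fun _ => ?_⟩
  have fN : Group.IsFinitelyPresented π₁.ker := hN.2 hn
  have fΓ₂ : Group.IsFinitelyPresented Γ₂ := hΓ₂.2 (by omega)
  exact Pool.Agent.NN.fp_extension (Pool.Agent.NN.fibE π₁ π₂ h₁).ι
    (Pool.Agent.NN.fibE π₁ π₂ h₁).π (Pool.Agent.NN.fibE π₁ π₂ h₁).ι_inj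
    (Pool.Agent.NN.fibE π₁ π₂ h₁).π_surj (Pool.Agent.NN.fibE π₁ π₂ h₁).exact
    (Pool.Agent.NN.fg_of_fp _)

end Pool.Agent.Results.MP_5c61b4_al.FibreProducts
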